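import Pool.Agent.V11233.SR.Ann
import Pool.Agent.V11233.SR.Wit

/-!
# The hierarchy of first-move self-regulating pushdown automata is infinite

Definitions (automaton, computation, `n`-turn first-move language, the families):
`Pool/Agent/V11233/SR/Def.lean`.

Idea. Inclusion: an idle phase is put before the first one. Proper inclusion: an automaton with
`n + 2` phases accepts the words `a_1^i a_2^i ... a_r^i` with `r = 2n + 4`, and in all words it
accepts all letters occur equally often. Suppose an automaton with `n + 1` phases accepts the same
language. The computations, annotated with the phase, the first label of the phase and the last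
letter read, are the derivations of a context-free grammar, so each of them is a small derivation
plus pumps from a finite set; a pump touches at most two letters. By Dickson's lemma two of the
computations differ by pumps `δ` only. The vectors of the lengths of the phases of `δ` satisfy `n`
linear equations, hence by Carathéodory's theorem there is a combination of at most `n + 1` of these
pumps that satisfies the equations and reads a letter; it reads at most `2n + 2` different letters.
Adding it gives an accepted word in which not all letters occur equally often.
-/

set_option autoImplicit false

namespace Pool.Agent.Results.MP_e3bf5d_lc.Hierarchy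

open Pool.Agent.V11233.SR

/-- For every `n`: every language of `FSPDA n` is in `FSPDA (n + 1)`, over every alphabet, and over
some finite alphabet there is a language of `FSPDA (n + 1)` that is not in `FSPDA n`. -/
theorem result : ∀ n : ℕ, (∀ S : Type, FSPDA n S ⊆ FSPDA (n + 1) S) ∧
    ∃ r : ℕ, ∃ L ∈ FSPDA (n + 1) (Fin r), L ∉ FSPDA n (Fin r) := by
  intro n
  refine ⟨incl n, 2 * (n + 2), _, ⟨WM (n + 2) (by omega), rfl⟩, ?_⟩
  rintro ⟨M, hM⟩
  refine not_mem M n (by omega) (fun i => ?_) (fun w hw => ?_)
  · rw [← hM]
    exact WM_accept n i
  · rw [← hM] at hw
    exact WM_equal n w hw

end Pool.Agent.Results.MP_e3bf5d_lc.Hierarchy
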